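import Pool.Agent.helper5.SYM.SpecB

/-!
# sy:CJI (project MP_45d809_mp, spec by helper5)
-/

set_option autoImplicit false

namespace Pool.Agent.SYM
open Finset CT Polynomial

section CJI
variable {V : Type} {G : SimpleGraph V}

theorem CJI_nav {D D' : Type} (E : D ≃ D') (s τ : D → D) (s' τ' : D' → D')
    (hs : ∀ d, E (s d) = s' (E d)) (ht : ∀ d, E (τ d) = τ' (E d)) (Q : D' → Prop) :
    nav s' τ' Q = nav s τ (fun d => Q (E d)) := by
  unfold nav
  have hrel : ∀ a b : D, (b = s a ∨ b = τ a) ↔ (E b = s' (E a) ∨ E b = τ' (E a)) := by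
    intro a b
    rw [← hs, ← ht, E.apply_eq_iff_eq, E.apply_eq_iff_eq]
  let F : Cir s τ ≃ Cir s' τ' := Quot.congr E hrel
  have hF : ∀ d, F (cir s τ d) = cir s' τ' (E d) := fun d => rfl
  apply Nat.card_congr
  refine (Equiv.subtypeEquiv F ?_).symm
  intro c
  constructor
  · intro h d hd heq
    have hd2 : Q (E (E.symm d)) := by
      rw [E.apply_symm_apply]
      exact hd
    have h1 := h (E.symm d) hd2
    apply h1
    apply F.injective
    rw [hF, E.apply_symm_apply]
    exact heq
  · intro h d hd heq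
    apply h (E d) hd
    rw [← hF, heq]

theorem CJI_l (σ : G ≃g G) (d : G.Dart) : sd σ (sd σ.symm d) = d := by
  apply SimpleGraph.Dart.ext
  apply Prod.ext
  · exact σ.apply_symm_apply d.fst
  · exact σ.apply_symm_apply d.snd

theorem CJI_r (σ : G ≃g G) (d : G.Dart) : sd σ.symm (sd σ d) = d := by
  apply SimpleGraph.Dart.ext
  apply Prod.ext
  · exact σ.symm_apply_apply d.fst
  · exact σ.symm_apply_apply d.snd

theorem CJI_s (σ : G ≃g G) (d : G.Dart) : sd σ d.symm = (sd σ d).symm := rfl

/-- `sd σ` as a bijection of the darts -/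
def CJI_E (σ : G ≃g G) : G.Dart ≃ G.Dart where
  toFun := sd σ
  invFun := sd σ.symm
  left_inv := CJI_r σ
  right_inv := CJI_l σ

end CJI

theorem CJI : CJI_stmt := by
  intro V _ G σ τ
  refine ⟨?_, ?_, ?_⟩
  · intro Q
    unfold gav
    have := CJI_nav (CJI_E σ) (fun d : G.Dart => d.symm) τ (fun d : G.Dart => d.symm) (cj σ τ)
      (fun d => rfl) ?_ Q
    · exact this
    · intro d
      show sd σ (τ d) = sd σ (τ (sd σ.symm (sd σ d)))
      rw [CJI_r]
  · rintro ⟨h1, h2, h3⟩
    refine ⟨?_, ?_, ?_⟩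
    · intro d
      show sd σ (τ (sd σ.symm (sd σ (τ (sd σ.symm d))))) = d
      rw [CJI_r, h1, CJI_l]
    · intro d
      show σ ((τ (sd σ.symm d)).fst) = d.fst
      rw [h2]
      exact σ.apply_symm_apply d.fst
    · intro d hd
      apply h3 (sd σ.symm d)
      have hd' : sd σ (τ (sd σ.symm d)) = d := hd
      have h4 := congrArg (sd σ.symm) hd'
      rw [CJI_r] at h4
      exact h4
  · constructor
    · intro h d
      have h4 := congrFun h (sd σ d)
      have h5 : sd σ (τ (sd σ.symm (sd σ d))) = τ (sd σ d) := h4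
      rw [CJI_r] at h5
      exact h5.symm
    · intro h
      funext d
      show sd σ (τ (sd σ.symm d)) = τ d
      rw [← h (sd σ.symm d), CJI_l]

end Pool.Agent.SYM
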