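import Pool.Agent.helper5.SYM.SpecB

/-!
# sy:OR4 (project MP_45d809_mp, spec by helper5)
-/

set_option autoImplicit false

namespace Pool.Agent.SYM
open Finset CT Polynomial

theorem OR4_l0_inj {V : Type} : Function.Injective (l0 : V → V × Fin 3) := by
  intro a b h
  exact congrArg Prod.fst h

theorem OR4_card {V : Type} [DecidableEq V] (C : Finset ((V × Fin 3) × Fin 4)) (J K : Finset V)
    (h : Disjoint J K) :
    2 * J.card + K.card ≤ (Ed C (J.image l0) (K.image l0)).card := by
  have hinj : Function.Injective (l0 : V → V × Fin 3) := OR4_l0_inj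
  have h1 : (jd (J.image l0)).card = 2 * J.card := by
    unfold jd
    rw [Finset.card_product, Finset.card_image_of_injective _ hinj]
    have : ({0, 1} : Finset (Fin 4)).card = 2 := by decide
    rw [this]
    ring
  have h2 : ((K.image l0) ×ˢ ({0} : Finset (Fin 4))).card = K.card := by
    rw [Finset.card_product, Finset.card_image_of_injective _ hinj, Finset.card_singleton, mul_one]
  have h3 : Disjoint (jd (J.image l0)) ((K.image l0) ×ˢ ({0} : Finset (Fin 4))) := by
    rw [Finset.disjoint_left]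
    intro x hx hy
    unfold jd at hx
    rw [Finset.mem_product] at hx hy
    obtain ⟨j, hj, hjx⟩ := Finset.mem_image.mp hx.1
    obtain ⟨k, hk, hkx⟩ := Finset.mem_image.mp hy.1
    have : j = k := hinj (hjx.trans hkx.symm)
    subst this
    exact (Finset.disjoint_left.mp h) hj hk
  rw [← h1, ← h2, ← Finset.card_union_of_disjoint h3]
  apply Finset.card_le_card
  unfold Ed
  intro x hx
  rcases Finset.mem_union.mp hx with h | h
  · exact Finset.mem_union_left _ (Finset.mem_union_right _ h)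
  · exact Finset.mem_union_right _ h

theorem OR4 (hNB4 : NB4_stmt) (hFRD : FRD_stmt) (hQUO : QUO_stmt) (hADM : ADM_stmt)
    (hGPA : GPA_stmt) (hLNK1 : LNK1_stmt) (hEQA : EQA_stmt) (hEV42 : EV42_stmt)
    (hTW4 : TW4_stmt) : OR4_stmt := by
  classical
  intro V A _ _ _ _ G θ v hA h4 h7 hN3 hnt hom one hY hv
  haveI : Nonempty V := ⟨v⟩
  obtain ⟨R, J, K, γ, κ, hD, hK⟩ := hNB4 V A G θ hA h4 hom one hY
  have hvK : v ∈ K := hK v hv
  have hF := hFRD V A G θ R J K γ κ hD
  obtain ⟨e, α, C, γ', hQ⟩ := hQUO V G.Dart A _ _ _ _ _ hF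
  have hAdm := hADM V A G θ R J K γ κ e α C γ' hD hQ
  have hN1 : Odd (N1 G v) := hLNK1 V G v h4 h7 hN3
  have hodd := (hEQA V A G θ ⟨2, by rw [hA]; norm_num⟩ hom).2 v hv hN1
  -- the transition system `τ₀`
  have hne : ∃ τ₀ : G.Dart → G.Dart, IsTS τ₀ ∧ (∀ a, Inv (θ a) τ₀) ∧
      gav τ₀ (fun d => d.fst = v) = 1 := by
    have hpos := hodd.pos
    rw [Nat.card_pos_iff] at hpos
    obtain ⟨⟨τ₀, h⟩⟩ := hpos.1
    exact ⟨τ₀, h⟩
  obtain ⟨τ₀, hτ1, hτ2, _⟩ := hne
  have hsub : ({v} : Finset V) ⊆ K := Finset.singleton_subset_iff.mpr hvK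
  have hG := hGPA V A G θ R J K {v} γ κ τ₀ e α C γ' hD hτ1 hτ2 hQ hsub 1
  have hcard : Nat.card {τ : G.Dart → G.Dart // IsTS τ ∧ (∀ a, Inv (θ a) τ) ∧
        (∀ d, ¬ Yf θ d → τ d = τ₀ d) ∧
          gav τ (fun d => ¬ Yf θ d ∨ d.fst ∈ ({v} : Finset V)) = 1} =
      Nat.card {τ : G.Dart → G.Dart // IsTS τ ∧ (∀ a, Inv (θ a) τ) ∧
        gav τ (fun d => d.fst = v) = 1} := by
    have hQQ : (fun d : G.Dart => ¬ Yf θ d ∨ d.fst ∈ ({v} : Finset V)) =
        fun d : G.Dart => d.fst = v := by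
      funext d
      apply propext
      constructor
      · rintro (h | h)
        · exact absurd (hY d) h
        · exact Finset.mem_singleton.mp h
      · intro h
        exact Or.inr (Finset.mem_singleton.mpr h)
    rw [hQQ]
    apply Nat.card_congr
    apply Equiv.subtypeEquivRight
    intro τ
    constructor
    · rintro ⟨a1, a2, _, a4⟩
      exact ⟨a1, a2, a4⟩
    · rintro ⟨a1, a2, a4⟩
      exact ⟨a1, a2, fun d hd => absurd (hY d) hd, a4⟩
  rw [hcard] at hG
  have hone : ((Nat.card {τ : G.Dart → G.Dart // IsTS τ ∧ (∀ a, Inv (θ a) τ) ∧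
        gav τ (fun d => d.fst = v) = 1} : ℕ) : ZMod 2) = 1 := by
    obtain ⟨m, hm⟩ := hodd
    rw [hm]
    push_cast
    have : (2 : ZMod 2) = 0 := by decide
    rw [this, zero_mul, zero_add]
  rw [hone] at hG
  have himg : ({v} : Finset V).image l0 = {l0 v} := Finset.image_singleton _ _
  by_cases hcond : (Ed C (J.image l0) (K.image l0)).card ≤ 4 → 2 ≤ (R.toList.map l0).length
  · have hz := hEV42 (V × Fin 3) A (R.toList.map l0) C (J.image l0) (K.image l0) (l0 v)
      (gm γ γ') e α hA hAdm (Finset.mem_image_of_mem _ hvK) ?_ ?_ hcond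
    · rw [himg] at hG
      rw [hz] at hG
      exact absurd hG (by decide)
    · intro c hc
      have h1 := hQ.capv c hc
      have h2 : gm γ γ' c = γ' c := by
        unfold gm
        rw [if_neg]
        rw [h1.1]
        decide
      rw [h2]
      exact h1.2
    · intro j hj
      obtain ⟨x, hx, rfl⟩ := Finset.mem_image.mp hj
      have h2 : gm γ γ' (l0 x, 0) = γ x := by
        unfold gm
        rw [if_pos]
        · rfl
        · rfl
      rw [h2]
      exact (hD.Jst x hx).1
  · push Not at hcond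
    obtain ⟨hc1, hc2⟩ := hcond
    rw [List.length_map, Finset.length_toList] at hc2
    apply hnt
    apply hTW4 V A G θ R J K γ κ v hA h4 h7 hY hD hv ?_ (by omega)
      ((OR4_card C J K hD.dJK).trans hc1)
    intro u w hu hw
    obtain ⟨a, ha⟩ := hD.Kd v hvK ⟨(v, u), hu⟩ rfl (hY _)
    obtain ⟨b, hb⟩ := hD.Kd v hvK ⟨(v, w), hw⟩ rfl (hY _)
    refine ⟨b - a, ?_⟩
    have ha' : u = θ a (κ (v, 0)).snd := congrArg (fun d : G.Dart => d.snd) ha
    have hb' : w = θ b (κ (v, 0)).snd := congrArg (fun d : G.Dart => d.snd) hb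
    rw [ha', hb', ← hom, sub_add_cancel]

end Pool.Agent.SYM
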